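import Mathlib

/-!
Degree power sums of t-intersecting families (MP_d97b4e_co): the definitions used in the
hand-ins.
-/

namespace Pool.Agent.DPS

open Finset

/-- The degree of `R` in the family `A`: the number of members of `A` that contain `R`. -/
def degree {n : ℕ} (A : Finset (Finset (Fin n))) (R : Finset (Fin n)) : ℕ :=
  (A.filter fun F => R ⊆ F).card

/-- `A` is t-intersecting. -/
def TInt {n : ℕ} (t : ℕ) (A : Finset (Finset (Fin n))) : Prop :=
  ∀ F ∈ A, ∀ G ∈ A, t ≤ (F ∩ G).card

/-- The full star of `T`: all k-sets that contain `T`. -/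
def fullStar {n : ℕ} (k : ℕ) (T : Finset (Fin n)) : Finset (Finset (Fin n)) :=
  (powersetCard k univ).filter fun F => T ⊆ F

/-- The r-degree power sum of the family `A` with real exponent `p`. -/
noncomputable def ell {n : ℕ} (r : ℕ) (p : ℝ) (A : Finset (Finset (Fin n))) : ℝ :=
  ∑ R ∈ powersetCard r (univ : Finset (Fin n)), (degree A R : ℝ) ^ p

end Pool.Agent.DPS
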