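import Mathlib

/-!
Degree power sums of t-intersecting families (MP_d97b4e_co): definitions for the spectral part.

`KS n k` = the k-subsets of `Fin n`; functions `KS n k → ℝ`.
`Y` = the Laplacian of the Johnson graph, written as half the sum of (1 - transposition).
`star k T` = the indicator of the k-sets that contain `T`.
`dg f R` = the degree of `R` in the weighted family `f`.
`M n k r` = the form with entries (|F ∩ G| choose r), `K n k` = the disjointness matrix.
`y n j = j (n + 1 - j)` = the eigenvalues of `Y`.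
-/

namespace Pool.Agent.DPS

open Finset

/-- The k-subsets of `Fin n`. -/
abbrev KS (n k : ℕ) := {F : Finset (Fin n) // F.card = k}

/-- The transposition `(a b)` acting on a k-set. -/
def sw {n k : ℕ} (a b : Fin n) (F : KS n k) : KS n k :=
  ⟨F.1.map (Equiv.swap a b).toEmbedding, by rw [Finset.card_map]; exact F.2⟩

/-- The Laplacian of the Johnson graph. -/
noncomputable def Y (n k : ℕ) : (KS n k → ℝ) →ₗ[ℝ] (KS n k → ℝ) where
  toFun f := fun F => (1 / 2) * ∑ a : Fin n, ∑ b : Fin n, (f F - f (sw a b F))
  map_add' f g := by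
    funext F
    simp only [Pi.add_apply, ← mul_add, ← Finset.sum_add_distrib]
    congr 1
    refine Finset.sum_congr rfl fun a _ => Finset.sum_congr rfl fun b _ => ?_
    ring
  map_smul' c f := by
    funext F
    simp only [Pi.smul_apply, smul_eq_mul, RingHom.id_apply, Finset.mul_sum]
    refine Finset.sum_congr rfl fun a _ => Finset.sum_congr rfl fun b _ => ?_
    ring

/-- The indicator of the star of `T`. -/
noncomputable def star {n : ℕ} (k : ℕ) (T : Finset (Fin n)) : KS n k → ℝ :=
  fun F => if T ⊆ F.1 then 1 else 0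

/-- The degree of `R` in the weighted family `f`. -/
noncomputable def dg {n k : ℕ} (f : KS n k → ℝ) (R : Finset (Fin n)) : ℝ :=
  ∑ F : KS n k, if R ⊆ F.1 then f F else 0

/-- The matrix with entries (|F ∩ G| choose r), as a sum over the r-sets. -/
noncomputable def M (n k r : ℕ) : (KS n k → ℝ) →ₗ[ℝ] (KS n k → ℝ) where
  toFun f := fun F => ∑ R ∈ Finset.powersetCard r (Finset.univ : Finset (Fin n)),
    (if R ⊆ F.1 then (1 : ℝ) else 0) * dg f R
  map_add' f g := by
    funext F
    simp only [Pi.add_apply, dg, ← Finset.sum_add_distrib, ← mul_add]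
    refine Finset.sum_congr rfl fun R _ => ?_
    congr 1
    refine Finset.sum_congr rfl fun G _ => ?_
    split_ifs <;> simp
  map_smul' c f := by
    funext F
    simp only [Pi.smul_apply, smul_eq_mul, RingHom.id_apply, Finset.mul_sum, dg]
    refine Finset.sum_congr rfl fun R _ => Finset.sum_congr rfl fun G _ => ?_
    split_ifs <;> ring

/-- The disjointness (Kneser) matrix. -/
noncomputable def K (n k : ℕ) : (KS n k → ℝ) →ₗ[ℝ] (KS n k → ℝ) where
  toFun f := fun F => ∑ G : KS n k, if Disjoint F.1 G.1 then f G else 0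
  map_add' f g := by
    funext F
    simp only [Pi.add_apply, ← Finset.sum_add_distrib]
    refine Finset.sum_congr rfl fun G _ => ?_
    split_ifs <;> simp
  map_smul' c f := by
    funext F
    simp only [Pi.smul_apply, smul_eq_mul, RingHom.id_apply, Finset.mul_sum]
    refine Finset.sum_congr rfl fun G _ => ?_
    split_ifs <;> simp

/-- The standard inner product. -/
noncomputable def ip {n k : ℕ} (f g : KS n k → ℝ) : ℝ := ∑ F : KS n k, f F * g F

/-- The indicator of a family of k-sets. -/
noncomputable def ind {n k : ℕ} (A : Finset (KS n k)) : KS n k → ℝ :=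
  fun F => if F ∈ A then 1 else 0

/-- The eigenvalues of `Y`. -/
noncomputable def y (n j : ℕ) : ℝ := (j : ℝ) * ((n : ℝ) + 1 - j)

/-- The polynomial with `m(Y) = M n k r`. -/
noncomputable def mp (n k r : ℕ) : Polynomial ℝ :=
  Polynomial.C (1 / (((k - r).factorial : ℝ)) ^ 2) *
    ∏ l ∈ Finset.Ioc r k, (Polynomial.C (y n l) - Polynomial.X)

/-- The polynomial with `kp(Y) = K n k`. -/
noncomputable def kp (n k : ℕ) : Polynomial ℝ :=
  ∑ r ∈ Finset.range (k + 1), Polynomial.C ((-1 : ℝ) ^ r) * mp n k r

/-- The eigenvalues of the Kneser matrix. -/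
noncomputable def kap (n k j : ℕ) : ℝ := (-1 : ℝ) ^ j * ((n - k - j).choose (k - j) : ℝ)

/-- The absolute coefficients of Wilson's inequality. -/
noncomputable def cc (n k t j l : ℕ) : ℝ :=
  |kap n k j / kap n k l| * ∏ m ∈ (Finset.Icc 1 t).erase l, (|y n j - y n m| / |y n l - y n m|)

/-- Divided difference of `f` at the nodes `v i`, `i ∈ s`. -/
noncomputable def dd (v : ℕ → ℝ) (s : Finset ℕ) (f : ℕ → ℝ) : ℝ :=
  ∑ i ∈ s, f i / ∏ j ∈ s.erase i, (v i - v j)

/-- `kap n k 0 / kap n k l`, in factorials. -/
noncomputable def gk (n k l : ℕ) : ℝ :=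
  (-1 : ℝ) ^ l * (((k - l).factorial : ℝ) * ((n - k).factorial : ℝ)) /
    (((n - k - l).factorial : ℝ) * (k.factorial : ℝ))

end Pool.Agent.DPS
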