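import Pool.Agent.DPS.Defs

/-!
Statements of the squad DPS (MP_d97b4e_co). Every row is one statement `XStmt`; the docstring
contains the complete proof. Theorem names: `x` in lower case, namespace `Pool.Agent.DPS.HNN`.
-/

namespace Pool.Agent.DPS

open Finset Polynomial

/-- SPE (120 lines; uses nothing). Spectral lemma without eigenvectors. Proof: let `L l` be the
Lagrange basis polynomial of the nodes `v i`, `i ∈ s` (Mathlib: `Lagrange.basis s v l`),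
`P = ∏ (C (v l) - X)`. `Lagrange.sum_basis`: sum of the `L l` is 1. For every polynomial `q` the
polynomial `q - ∑ C (q.eval (v l)) * L l` vanishes at all nodes, hence is divisible by `P`
(`Lagrange.nodal`, or induction with `Polynomial.dvd_iff_isRoot` and coprimality), so
`aeval T q = ∑ q(v l) • aeval T (L l)`. Apply this to `q = p` and to `q = L l * L l`
(value 1 at `v l` and 0 at the other nodes): `aeval T (L l)` is idempotent. Polynomials in a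
symmetric operator are symmetric (induction on the polynomial), hence
`⟨w, L l (T) w⟩ = ⟨L l (T) w, L l (T) w⟩ ≥ 0`. If `s = ∅` then `1 = 0` as operators. -/
def SPEStmt : Prop :=
  ∀ (ι : Type) [Fintype ι] (T : (ι → ℝ) →ₗ[ℝ] (ι → ℝ)),
    (∀ f g : ι → ℝ, ∑ i, T f i * g i = ∑ i, f i * T g i) →
    ∀ (s : Finset ℕ) (v : ℕ → ℝ), Set.InjOn v s →
      aeval T (∏ l ∈ s, (C (v l) - X)) = 0 →
      ∀ p : ℝ[X], (∀ l ∈ s, 0 ≤ p.eval (v l)) → ∀ w : ι → ℝ, 0 ≤ ∑ i, w i * (aeval T p w) i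

/-- SYM (40 lines). `Y` is symmetric: for fixed `a b` the map `sw a b` is an involution of `KS n k`,
so `∑ F, f (sw a b F) * g F = ∑ F, f F * g (sw a b F)`. -/
def SYMStmt : Prop :=
  ∀ (n k : ℕ) (f g : KS n k → ℝ), ip (Y n k f) g = ip f (Y n k g)

/-- STR (120 lines). The basic identity. Proof: `star k T (sw a b F) = star k (T.map (swap a b)) F`.
`T.map (swap a b) = T` if `a, b` are both in `T` or both outside; if `a ∈ T, b ∉ T` it is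
`insert b (T.erase a)`, and the two orders of the pair give the factor 2. Hence
`(Y (star k T)) F = ∑ a ∈ T, ∑ b ∉ T, (star k T F - [insert b (T.erase a) ⊆ F])`.
If `T.erase a ⊆ F` then the number of `b ∉ T` with `b ∈ F` is `|F \ T|
= k - (|T| - 1) - [a ∈ F]`, so the inner sum is
`(n - |T|) [T ⊆ F] - ((k - |T| + 1) [T.erase a ⊆ F] - [T ⊆ F])`; otherwise both sides are 0.
Summation over `a ∈ T` gives the claim. -/
def STRStmt : Prop :=
  ∀ (n k : ℕ) (T : Finset (Fin n)),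
    Y n k (star k T) = y n T.card • star k T -
      ((k : ℝ) - T.card + 1) • ∑ a ∈ T, star k (T.erase a)

/-- STA (60 lines; uses STR). Induction on `t`: the factors commute, and
`(y t - Y)(star k T) = (k - t + 1) ∑ a ∈ T, star k (T.erase a)` by STR; for `t = 0`,
`T = ∅`, `y n 0 = 0` and `Y (star k ∅) = 0`. -/
def STAStmt : Prop :=
  ∀ (n k t : ℕ) (T : Finset (Fin n)), T.card = t →
    aeval (Y n k) (∏ l ∈ Finset.range (t + 1), (C (y n l) - X)) (star k T) = 0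

/-- MRC (80 lines; uses STR). `M f = ∑_{|R| = r} dg f R • star k R`, apply STR to every `star k R`
(`|R| = r`): `(y r - Y) M_r f = (k - r + 1) ∑_R ∑_{a ∈ R} dg f R • star k (R.erase a)
= (k - r + 1) ∑_{|S| = r - 1} star k S • ∑_{a ∉ S} dg f (insert a S)`, and
`∑_{a ∉ S} dg f (insert a S) = (k - r + 1) dg f S` (a k-set that contains `S` has
`k - (r - 1)` elements outside `S`). -/
def MRCStmt : Prop :=
  ∀ (n k r : ℕ), 1 ≤ r → r ≤ k → ∀ f : KS n k → ℝ,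
    y n r • M n k r f - Y n k (M n k r f) = (((k : ℝ) - r + 1) ^ 2) • M n k (r - 1) f

/-- MKI (30 lines). For `r = k`: `R ⊆ F` and `|R| = |F| = k` means `R = F`. -/
def MKIStmt : Prop := ∀ (n k : ℕ) (f : KS n k → ℝ), M n k k f = f

/-- MPO (80 lines; uses MRC MKI). Downward induction on `r` from `r = k` (MKI, `mp n k k = 1`):
`mp n k (r-1) = C (1/(k-r+1)^2) * (C (y r) - X) * mp n k r` (`Finset.Ioc (r-1) k` is
`insert r (Finset.Ioc r k)`, `(k-(r-1))! = (k-r+1) (k-r)!`) and MRC. -/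
def MPOStmt : Prop :=
  ∀ (n k r : ℕ), r ≤ k → aeval (Y n k) (mp n k r) = M n k r

/-- ANN (40 lines; uses MPO). `∏_{l ∈ range (k+1)} (C (y l) - X) = (C (y 0) - X) * C ((k!)^2) * mp n k 0`,
`aeval Y (mp n k 0) = M n k 0`, and `M n k 0 f` is a constant function, which `Y` kills
(`y n 0 = 0`). -/
def ANNStmt : Prop :=
  ∀ (n k : ℕ), aeval (Y n k) (∏ l ∈ Finset.range (k + 1), (C (y n l) - X)) = 0

/-- KNA (50 lines). `∑_r (-1)^r (M n k r f) F = ∑_G f G ∑_{R ⊆ F ∩ G} (-1)^|R|`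
(subsets of `F ∩ G` have at most `k` elements), and the inner sum is 1 if `F ∩ G = ∅`, else 0
(`Finset.sum_powerset_neg_one_pow_card`). -/
def KNAStmt : Prop :=
  ∀ (n k : ℕ) (f : KS n k → ℝ),
    ∑ r ∈ Finset.range (k + 1), ((-1 : ℝ) ^ r) • M n k r f = K n k f

/-- MEV (80 lines). Value of `mp n k r` at an eigenvalue:
`y l - y j = (l - j)(n + 1 - l - j)`; for `j ≤ r` the product over `r < l ≤ k` is
`(k-j)!/(r-j)! * (n-r-j)!/(n-k-j)!`; divide by `((k-r)!)^2`. For `r < j ≤ k` the factor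
`l = j` is 0. -/
def MEVStmt : Prop :=
  ∀ (n k r j : ℕ), 2 * k ≤ n → r ≤ k → j ≤ k →
    (mp n k r).eval (y n j) =
      if j ≤ r then ((k - j).choose (k - r) : ℝ) * ((n - r - j).choose (k - r) : ℝ) else 0

/-- MAN (60 lines). `mp n k r` is antitone and nonnegative on the eigenvalues: for
`i ≤ j ≤ r < l ≤ k` one has `0 ≤ y l - y j ≤ y l - y i` because `y` increases on
`{0..k}` (`y (i+1) - y i = n - 2 i ≥ 0` for `i < k`, `2 k ≤ n`); if `r < j ≤ k` the value at `j`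
is 0. -/
def MANStmt : Prop :=
  ∀ (n k r i j : ℕ), 2 * k ≤ n → r ≤ k → i ≤ j → j ≤ k →
    0 ≤ (mp n k r).eval (y n j) ∧ (mp n k r).eval (y n j) ≤ (mp n k r).eval (y n i)

/-- KEV (80 lines; uses MEV). `∑_{r=j}^k (-1)^r C(k-j,k-r) C(n-r-j,k-r) = (-1)^j C(n-k-j,k-j)`.
With `i = r - j`, `a = k - j`, `b = n - 2 j` this is
`∑_{i ≤ a} (-1)^i C(a,i) C(b-i,a-i) = C(b-a,a)`. More generally, for `c ≤ a ≤ b`,
`∑_{i ≤ c} (-1)^i C(c,i) C(b-i,a-i) = C(b-c,a)`: induction on `c` for all `a b` with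
`C(c+1,i) = C(c,i) + C(c,i-1)` and `C(b-c,a) - C(b-1-c,a-1) = C(b-1-c,a)`. -/
def KEVStmt : Prop :=
  ∀ (n k j : ℕ), 2 * k ≤ n → j ≤ k → (kp n k).eval (y n j) = kap n k j

/-- SUP (70 lines). If `u : KS n k → ℝ` vanishes at all `F` with `|F ∩ G| > m` then `Y u` vanishes at
all `F` with `|F ∩ G| > m + 1` (a transposition changes `|F ∩ G|` by at most 1). `K (ind {G})` vanishes
if `|F ∩ G| > 0`. So `Y^i (K (ind {G}))` vanishes if `|F ∩ G| > i`; `Q` has degree `< t`. -/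
def SUPStmt : Prop :=
  ∀ (n k t : ℕ) (Q : ℝ[X]) (F G : KS n k), Q.natDegree < t → t ≤ (F.1 ∩ G.1).card →
    (aeval (Y n k) Q (K n k (ind {G}))) F = 0

/-- SUI (40 lines; uses SUP). `ind A = ∑_{G ∈ A} ind {G}`, linearity. -/
def SUIStmt : Prop :=
  ∀ (n k t : ℕ) (Q : ℝ[X]) (A : Finset (KS n k)), Q.natDegree < t →
    (∀ F ∈ A, ∀ G ∈ A, t ≤ (F.1 ∩ G.1).card) →
    ip (ind A) (aeval (Y n k) Q (K n k (ind A))) = 0

/-- DDR (50 lines). Recursion of divided differences. For `i ∈ s`: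
`(v b - v a) / ((v i - v a) (v i - v b)) = 1/(v i - v b) - 1/(v i - v a)`; the terms `i = b` and
`i = a` are direct. -/
def DDRStmt : Prop :=
  ∀ (v : ℕ → ℝ) (s : Finset ℕ) (f : ℕ → ℝ) (a b : ℕ), a ∉ s → b ∉ s → a ≠ b →
    Set.InjOn v (insert a (insert b s) : Finset ℕ) →
    (v b - v a) * dd v (insert a (insert b s)) f = dd v (insert b s) f - dd v (insert a s) f

/-- DDI (40 lines). Interpolation error: split the term `i = j` from `dd v (insert j s) f` and multiply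
by `∏_{m ∈ s} (v j - v m)`. -/
def DDIStmt : Prop :=
  ∀ (v : ℕ → ℝ) (s : Finset ℕ) (f : ℕ → ℝ) (j : ℕ), j ∉ s → Set.InjOn v (insert j s : Finset ℕ) →
    f j - ∑ l ∈ s, f l * ∏ m ∈ s.erase l, ((v j - v m) / (v l - v m)) =
      (∏ m ∈ s, (v j - v m)) * dd v (insert j s) f

/-- DDC (120 lines; uses DDR). Closed form, by induction on `m` for all `n k`. Case `m = 0`:
`gk n k 0 = 1`. Step `m ≥ 1` (so `k ≥ 1`): DDR with `a = 0`, `b = m`, `s = {1..m-1}` gives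
`(y m - y 0) dd {0..m} = dd {1..m} - dd {0..m-1}`. Shift: `y n (l+1) = n + y (n-2) l` and
`gk n k (l+1) = -((n-k)/k) gk (n-2) (k-1) l` for `l ≤ k - 1`, so
`dd (y n) {1..m} (gk n k) = -((n-k)/k) dd (y (n-2)) {0..m-1} (gk (n-2) (k-1))`.
With `(k)_m` the falling factorial the right side is
`(-1)^m/(m-1)! [((n-k)/k)/(k-1)_{m-1} + 1/(k)_{m-1}]
= (-1)^m (n - m + 1)/((m-1)! (k)_m)`; divide by `y m - y 0 = m (n + 1 - m)`. -/
def DDCStmt : Prop :=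
  ∀ (m n k : ℕ), m ≤ k → 2 * k ≤ n →
    dd (y n) (Finset.range (m + 1)) (gk n k) =
      (-1 : ℝ) ^ m / ((m.factorial : ℝ) * (k.descFactorial m : ℝ))

/-- DDT (100 lines; uses DDR DDC). Nodes `1..t, t+2`. By the shift of DDC it equals
`-((n-k)/k) dd (y (n-2)) ({0..t-1} ∪ {t+1}) (gk (n-2) (k-1))`, and by DDR (`s = {0..t-1}`,
`a = t`, `b = t+1`) `dd ({0..t-1} ∪ {t+1}) = dd {0..t} + (y (t+1) - y t) dd {0..t+1}`,
`y (n-2) (t+1) - y (n-2) t = n - 2 - 2 t`; then DDC. Needs `t + 2 ≤ k`, `1 ≤ t`. -/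
def DDTStmt : Prop :=
  ∀ (n k t : ℕ), 1 ≤ t → t + 2 ≤ k → 2 * k ≤ n →
    dd (y n) (insert (t + 2) (Finset.Icc 1 t)) (gk n k) =
      (-1 : ℝ) ^ t * (((n : ℝ) - k) / k) * ((n : ℝ) - (t + 1) * (k - t + 1)) /
        (((t + 1).factorial : ℝ) * ((k - 1).descFactorial (t + 1) : ℝ))

/-- WIT (80 lines; uses DDI DDT). `θ_{t+2} ≤ 1`. Signs: `kap j / kap l` has sign `(-1)^(j-l)`,
`∏_{m ≠ l} (y j - y m)/(y l - y m)` has sign `(-1)^(t-l)` for `j > t`, so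
`cc n k t (t+2) l = (kap (t+2) / kap l) ∏_{m ≠ l} (y (t+2) - y m)/(y l - y m)`; with
`1/kap l = gk l / kap 0` and DDI,
`1 - ∑ cc = (kap (t+2)/kap 0) (∏_{m=1}^t (y (t+2) - y m)) dd (y n) (insert (t+2) (Icc 1 t)) (gk n k)`,
which is `≥ 0` by DDT (`kap (t+2)` has the sign of `(-1)^t`, `n ≥ (t+1)(k-t+1)`).
Note `2 k ≤ n` follows. -/
def WITStmt : Prop :=
  ∀ (n k t : ℕ), 1 ≤ t → t + 2 ≤ k → (t + 1) * (k - t + 1) ≤ n →
    ∑ l ∈ Finset.Icc 1 t, cc n k t (t + 2) l ≤ 1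

/-- WIM (120 lines; uses nothing). Monotonicity. `cc (j+1) l / cc j l
= ((k-j)/(n-k-j)) ∏_{m ≠ l} (j+1-m)(n-j-m)/((j-m)(n+1-j-m))
≤ ((k-j)/(n-k-j)) ∏_{m ≠ l} (j+1-m)/(j-m)`, and
`∏_{m=1..t, m ≠ l} (j+1-m)/(j-m) = (j/(j-t)) (j-l)/(j+1-l) ≤ (j/(j-t)) (j-1)/j = (j-1)/(j-t)`.
Finally `(k-j)(j-1) ≤ (n-k-j)(j-t)`: with `a = k - j ≥ 1`, `b = j - t ≥ 1` one has
`n - k - j ≥ t a + (t-1)(b-1)`, and `t a b + (t-1)(b-1) b ≥ a (b+t-1)`.
(`|kap (j+1)/kap j| = (k-j)/(n-k-j)`.) -/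
def WIMStmt : Prop :=
  ∀ (n k t j l : ℕ), 1 ≤ t → t + 1 ≤ j → j + 1 ≤ k → (t + 1) * (k - t + 1) ≤ n →
    l ∈ Finset.Icc 1 t → cc n k t (j + 1) l ≤ cc n k t j l

/-- THE (20 lines; uses WIT WIM). Induction on `j` from `t + 2`. -/
def THEStmt : Prop :=
  ∀ (n k t j : ℕ), 1 ≤ t → t + 2 ≤ j → j ≤ k → (t + 1) * (k - t + 1) ≤ n →
    ∑ l ∈ Finset.Icc 1 t, cc n k t j l ≤ 1

/-- POS (200 lines; uses THE). The certificate. `2 k ≤ n`, so `y` is strictly increasing on `{0..k}` and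
`kap j ≠ 0`. Put `α = (lam 0 + ∑ cc 0 l * lam l)/(1 + ∑ cc 0 l)` (sums over `l = 1..t`) and
`Q = Lagrange.interpolate (Icc 1 t) (y n) (fun l => (lam l - α)/kap l)`.
Then (i) for `1 ≤ l ≤ t` the expression is 0; (ii) signs: for `j > t`,
`kap j * (value) = (-1)^(j-t) ∑ (lam l - α) cc j l`, and for `j = 0` it is
`- ∑ (lam l - α) cc 0 l`, so the case `j = 0` is the definition of `α`:
`∑ (α - lam l) cc 0 l = lam 0 - α`; `α` is a weighted mean, so `lam t ≤ α ≤ lam 0`.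
(iii) `j - t` odd: the value is `(α - lam j) + ∑ (α - lam l) cc j l`. The ratio
`cc j l / cc 0 l = const * y l/(y j - y l)` increases with `l`, and `α - lam l` increases with
`l`: if all `α - lam l ≥ 0` clear; otherwise take the last `l0` with `α - lam l0 < 0` and
`c = cc j l0 / cc 0 l0`: `(α - lam l)(cc j l - c cc 0 l) ≥ 0` for all `l`, so the sum is
`≥ c (lam 0 - α) ≥ 0`. (iv) `j - t` even, so `j ≥ t + 2`: the value is
`(α - lam j) - ∑ (α - lam l) cc j l ≥ (α - lam t) - (α - lam t) ∑ cc j l ≥ 0` by THE. -/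
def POSStmt : Prop :=
  ∀ (n k t : ℕ), 1 ≤ t → t < k → (t + 1) * (k - t + 1) ≤ n → ∀ lam : ℕ → ℝ,
    (∀ i j, i ≤ j → j ≤ k → lam j ≤ lam i) →
    ∃ (α : ℝ) (Q : ℝ[X]), Q.natDegree < t ∧
      (∀ j, j ≤ t → α - lam j + kap n k j * Q.eval (y n j) = 0) ∧
      (∀ j, t < j → j ≤ k → 0 ≤ α - lam j + kap n k j * Q.eval (y n j))

/-- GEN (120 lines; uses SPE SYM STA MPO ANN KNA KEV SUI POS). The general theorem. Let
`lam j = m.eval (y n j)`, `α, Q` from POS, `N = C α - m + Q * kp n k`. `aeval Y (kp n k) = K`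
by MPO, KNA. `N.eval (y n j) = α - lam j + kap j * Q.eval (y n j)` by KEV, so SPE (with ANN, SYM; `y`
injective on `range (k+1)`) gives `0 ≤ α |A| - ip (ind A) (m(Y) (ind A)) + 0` (SUI;
`ip (ind A) (ind A) = |A|`). `N` vanishes at `y 0, ..., y t`, hence is divisible by
`∏_{l ≤ t} (C (y l) - X)` and `N(Y) (star k T) = 0` by STA; pairing with `star k T`, which is `ind B` for
`B` = the k-sets containing `T` (t-intersecting, SUI), gives
`α |B| = ip (star k T) (m(Y) (star k T))`. Combine. -/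
def GENStmt : Prop :=
  ∀ (n k t : ℕ), 1 ≤ t → t < k → (t + 1) * (k - t + 1) ≤ n → ∀ m : ℝ[X],
    (∀ i j, i ≤ j → j ≤ k → m.eval (y n j) ≤ m.eval (y n i)) →
    ∀ A : Finset (KS n k), (∀ F ∈ A, ∀ G ∈ A, t ≤ (F.1 ∩ G.1).card) →
    ∀ T : Finset (Fin n), T.card = t →
      ip (star k T) (star k T) * ip (ind A) (aeval (Y n k) m (ind A)) ≤
        (A.card : ℝ) * ip (star k T) (aeval (Y n k) m (star k T))

/-- QUA (30 lines). `ip f (M f) = ∑_R dg f R * ∑_{F ⊇ R} f F`. -/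
def QUAStmt : Prop :=
  ∀ (n k r : ℕ) (f : KS n k → ℝ),
    ip f (M n k r f) = ∑ R ∈ Finset.powersetCard r (Finset.univ : Finset (Fin n)), dg f R ^ 2

/-- P2A (80 lines; uses GEN MPO MAN QUA). For `r ≤ k`, `1 ≤ t < k`. Apply GEN with `m = mp n k r`
(MAN, MPO, QUA): `|S| L_r(A) ≤ |A| L_r(S)`; with `r = 0`: `|S| |A|^2 ≤ |A| |S|^2`,
so `|A| ≤ |S|` (`|S| > 0`; `|S| = ip (star k T) (star k T) = dg (star k T) ∅`), and the claim. -/
def P2AStmt : Prop :=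
  ∀ (n k t r : ℕ), 1 ≤ t → t < k → r ≤ k → (t + 1) * (k - t + 1) ≤ n →
    ∀ A : Finset (KS n k), (∀ F ∈ A, ∀ G ∈ A, t ≤ (F.1 ∩ G.1).card) →
    ∀ T : Finset (Fin n), T.card = t →
      (A.card : ℝ) ≤ ip (star k T) (star k T) ∧
      ip (star k T) (star k T) *
          ∑ R ∈ Finset.powersetCard r (Finset.univ : Finset (Fin n)), dg (ind A) R ^ 2 ≤
        (A.card : ℝ) *
          ∑ R ∈ Finset.powersetCard r (Finset.univ : Finset (Fin n)), dg (star k T) R ^ 2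

/-- R1V (100 lines; uses GEN MPO MEV QUA). The variance bound. GEN with
`m = mp n k 1 - C (k (k-1)/(n-1)) * mp n k 0`: by MEV its values are `C(n-2,k-1)` at `j = 0`
(`k C(n-1,k-1) - (k (k-1)/(n-1)) C(n,k) = C(n-2,k-1)`) and at `j = 1`, and 0 for
`2 ≤ j ≤ k`; QUA for `r = 1` and `r = 0` (`M n k 0`: `dg f ∅ = ∑ f`). -/
def R1VStmt : Prop :=
  ∀ (n k t : ℕ), 1 ≤ t → t < k → (t + 1) * (k - t + 1) ≤ n →
    ∀ A : Finset (KS n k), (∀ F ∈ A, ∀ G ∈ A, t ≤ (F.1 ∩ G.1).card) →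
    ∀ T : Finset (Fin n), T.card = t →
      ip (star k T) (star k T) * (∑ x : Fin n, dg (ind A) {x} ^ 2
          - (k : ℝ) * (k - 1) / (n - 1) * (A.card : ℝ) ^ 2) ≤
        (A.card : ℝ) * (∑ x : Fin n, dg (star k T) {x} ^ 2
          - (k : ℝ) * (k - 1) / (n - 1) * ip (star k T) (star k T) ^ 2)

/-- QMJ (90 lines). Tangent quadratic: `ψ(x) = x^p - (right side)` has `ψ(r) = ψ'(r) = 0 = ψ(1)` and
`ψ' = p x^(p-1) - affine` is convex on `[0,1]` (`p ≥ 2`). A convex function with zero at `r` and integral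
0 over `[r,1]` is `≤ 0` then `≥ 0` on `[r,1]` and `≥ 0` on `[0,r]`, so `ψ ≤ 0` on `[0,1]`. (Or: the
function `x ↦ (x^p - r^p - p r^(p-1) (x-r))/(x-r)^2 = ∫_0^1 (1-s) p (p-1) (r + s (x-r))^(p-2) ds` is
nondecreasing.) -/
def QMJStmt : Prop :=
  ∀ (p r x : ℝ), 2 ≤ p → 0 < r → r < 1 → 0 ≤ x → x ≤ 1 →
    x ^ p ≤ r ^ p + p * r ^ (p - 1) * (x - r) +
      (1 - r ^ p - p * r ^ (p - 1) * (1 - r)) / (1 - r) ^ 2 * (x - r) ^ 2

/-- R1S (60 lines). Degrees of the star: `|{F ⊇ T}| = C(n-t,k-t)`, `dg {x} = C(n-t,k-t)` for `x ∈ T`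
and `C(n-t-1,k-t-1) = ((k-t)/(n-t)) C(n-t,k-t)` for `x ∉ T` (`t < k`, `k ≤ n`). -/
def R1SStmt : Prop :=
  ∀ (n k t : ℕ), t < k → k ≤ n → ∀ T : Finset (Fin n), T.card = t →
    ip (star k T) (star k T) = ((n - t).choose (k - t) : ℝ) ∧
    ∀ x : Fin n, dg (star k T) {x} =
      if x ∈ T then ((n - t).choose (k - t) : ℝ)
      else ((k : ℝ) - t) / (n - t) * ((n - t).choose (k - t) : ℝ)

/-- R1P (150 lines; uses R1V R1S QMJ P2A). All real `p ≥ 2`, `r = 1`. Let `D = |S|`, `f = |A| = θ D`,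
`0 < θ ≤ 1` (P2A; `A = ∅` trivial), `ρ = (k-t)/(n-t)`, `δ_x = dg (ind A) {x} / f ∈ [0,1]`, `∑ δ_x = k`,
`C = (1 - ρ^p - p ρ^(p-1) (1-ρ))/(1-ρ)^2`, `0 ≤ C ≤ 1/(1-ρ)^2`, `ℓ = t + (n-t) ρ^p`. QMJ at `r = ρ`:
`∑ δ_x^p ≤ ℓ + C (∑ δ_x^2 - W)`, `W = t + (n-t) ρ^2` (equality for the star), and by R1V, R1S
`∑ δ_x^2 - W ≤ (1/θ - 1)(W - k (k-1)/(n-1))`. So `∑ dg^p ≤ D^p θ^p (ℓ + C (1/θ-1) U)` with
`U = W - k(k-1)/(n-1) = t (n-k)^2/(n (n-t)) + k (n-k)/(n (n-1))`. Since `1 - θ^p ≥ p θ^(p-1) (1-θ)`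
(Bernoulli) it is enough that `C U ≤ p ℓ`: `C t (n-k)^2/(n (n-t)) ≤ t (n-t)/n ≤ t` and
`C k (n-k)/(n (n-1)) ≤ k (n-t)^2/(n (n-1) (n-k)) ≤ 1` (`1-ρ = (n-k)/(n-t)`, `2 k ≤ n`), so
`C U ≤ t + 1 ≤ 2 t ≤ p ℓ`. -/
def R1PStmt : Prop :=
  ∀ (n k t : ℕ), 1 ≤ t → t < k → (t + 1) * (k - t + 1) ≤ n → ∀ p : ℝ, 2 ≤ p →
    ∀ A : Finset (KS n k), (∀ F ∈ A, ∀ G ∈ A, t ≤ (F.1 ∩ G.1).card) →
    ∀ T : Finset (Fin n), T.card = t →
      ∑ x : Fin n, dg (ind A) {x} ^ p ≤ ∑ x : Fin n, dg (star k T) {x} ^ p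

end Pool.Agent.DPS
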